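import Mathlib
import Pool.Agent.TH231.DFM.Stmts

/-!
Project DFM (helper231, MP_755967_pr), piece PSI0: chaos at small correlation.
-/

set_option autoImplicit false

open MeasureTheory ProbabilityTheory Filter Topology

namespace Pool.Agent.TH79.DFM

open Pool.TH231.DFM

section ip
variable {κ : Type} [Fintype κ]

lemma ip_comm (u v : κ → ℝ) : ip u v = ip v u := by
  unfold ip
  exact Finset.sum_congr rfl fun _ _ => mul_comm _ _

lemma ip_lin (u v w : κ → ℝ) (c : ℝ) : ip (fun k => u k + c * v k) w = ip u w + c * ip v w := by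
  unfold ip
  rw [Finset.mul_sum, ← Finset.sum_add_distrib]
  exact Finset.sum_congr rfl fun _ _ => by ring

lemma ip_sum {κ' : Type} [Fintype κ'] (u v : κ → ℝ) (u' v' : κ' → ℝ) :
    ip (Sum.elim u u') (Sum.elim v v') = ip u v + ip u' v' := by
  unfold ip
  rw [Fintype.sum_sum_type]
  simp only [Sum.elim_inl, Sum.elim_inr]

end ip

lemma swap4 {α γ : Type} [Fintype α] [Fintype γ] (F : α → α → γ → γ → ℝ) :
    ∑ i, ∑ j, ∑ s, ∑ t, F i j s t = ∑ s, ∑ t, ∑ i, ∑ j, F i j s t := by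
  calc ∑ i, ∑ j, ∑ s, ∑ t, F i j s t = ∑ i, ∑ s, ∑ j, ∑ t, F i j s t :=
        Finset.sum_congr rfl fun _ _ => Finset.sum_comm
    _ = ∑ s, ∑ i, ∑ j, ∑ t, F i j s t := Finset.sum_comm
    _ = ∑ s, ∑ i, ∑ t, ∑ j, F i j s t :=
        Finset.sum_congr rfl fun _ _ => Finset.sum_congr rfl fun _ _ => Finset.sum_comm
    _ = ∑ s, ∑ t, ∑ i, ∑ j, F i j s t := Finset.sum_congr rfl fun _ _ => Finset.sum_comm

/-- the vectors of the system of two replicas with correlated disorders -/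
noncomputable def BB (β : ℝ) (N : ℕ) (r : ℝ) (x : (Fin N → Fin 2) × (Fin N → Fin 2))
    (p : Fin 3 × (Fin N × Fin N)) : ℝ :=
  if p.1 = 0 then r * (uu β N x.1 p.2 + uu β N x.2 p.2)
    else if p.1 = 1 then √(1 - r ^ 2) * uu β N x.1 p.2 else √(1 - r ^ 2) * uu β N x.2 p.2

section
variable (β : ℝ) (N : ℕ) (r : ℝ)

lemma ip_BB (g : Fin 3 × (Fin N × Fin N) → ℝ) (x : (Fin N → Fin 2) × (Fin N → Fin 2)) :
    ip g (BB β N r x) = ip (mix r 0 1 g) (uu β N x.1) + ip (mix r 0 2 g) (uu β N x.2) := by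
  unfold ip
  rw [Fintype.sum_prod_type, Fin.sum_univ_three, ← Finset.sum_add_distrib,
    ← Finset.sum_add_distrib, ← Finset.sum_add_distrib]
  refine Finset.sum_congr rfl fun c _ => ?_
  unfold BB mix
  simp only [if_true, one_ne_zero, if_false, Fin.reduceEq]
  ring

lemma mix_BB1 (hr : r ^ 2 ≤ 1) (x : (Fin N → Fin 2) × (Fin N → Fin 2)) :
    mix r 0 1 (BB β N r x) = fun c => uu β N x.1 c + r ^ 2 * uu β N x.2 c := by
  funext c
  unfold BB mix
  simp only [if_true, one_ne_zero, if_false]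
  have h : √(1 - r ^ 2) * √(1 - r ^ 2) = 1 - r ^ 2 := Real.mul_self_sqrt (by linarith)
  linear_combination (uu β N x.1 c) * h

lemma mix_BB2 (hr : r ^ 2 ≤ 1) (x : (Fin N → Fin 2) × (Fin N → Fin 2)) :
    mix r 0 2 (BB β N r x) = fun c => uu β N x.2 c + r ^ 2 * uu β N x.1 c := by
  funext c
  unfold BB mix
  simp only [if_true, one_ne_zero, if_false, Fin.reduceEq]
  have h : √(1 - r ^ 2) * √(1 - r ^ 2) = 1 - r ^ 2 := Real.mul_self_sqrt (by linarith)
  linear_combination (uu β N x.2 c) * h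

lemma ip_BB_BB (hr : r ^ 2 ≤ 1) (x y : (Fin N → Fin 2) × (Fin N → Fin 2)) :
    ip (BB β N r x) (BB β N r y) =
      ip (uu β N x.1) (uu β N y.1) + r ^ 2 * ip (uu β N x.2) (uu β N y.1) +
        (ip (uu β N x.2) (uu β N y.2) + r ^ 2 * ip (uu β N x.1) (uu β N y.2)) := by
  rw [ip_BB, mix_BB1 β N r hr, mix_BB2 β N r hr, ip_lin, ip_lin]

lemma exp_BB (g : Fin 3 × (Fin N × Fin N) → ℝ) (x : (Fin N → Fin 2) × (Fin N → Fin 2)) :
    Real.exp (ip g (BB β N r x) + 0) = Real.exp (ip (mix r 0 1 g) (uu β N x.1) + 0) *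
      Real.exp (ip (mix r 0 2 g) (uu β N x.2) + 0) := by
  rw [ip_BB, ← Real.exp_add]
  congr 1
  ring

lemma Z_BB (g : Fin 3 × (Fin N × Fin N) → ℝ) :
    ∑ x, Real.exp (ip g (BB β N r x) + 0) =
      (∑ s, Real.exp (ip (mix r 0 1 g) (uu β N s) + 0)) *
        ∑ t, Real.exp (ip (mix r 0 2 g) (uu β N t) + 0) := by
  rw [Fintype.sum_prod_type, Finset.sum_mul_sum]
  exact Finset.sum_congr rfl fun s _ => Finset.sum_congr rfl fun t _ => exp_BB β N r g (s, t)

lemma Zpos (g : Fin N × Fin N → ℝ) : 0 < ∑ s, Real.exp (ip g (uu β N s) + 0) :=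
  Finset.sum_pos (fun _ _ => Real.exp_pos _) Finset.univ_nonempty

lemma LZ_BB (g : Fin 3 × (Fin N × Fin N) → ℝ) :
    LZ (BB β N r) (fun _ => 0) g = LL β N (mix r 0 1 g) + LL β N (mix r 0 2 g) := by
  unfold LL LZ
  rw [Z_BB, Real.log_mul (Zpos β N _).ne' (Zpos β N _).ne']

lemma RR_sq (s t : Fin N → Fin 2) : RR N s t ^ 2 =
    (∑ i, ∑ j, (sg (s i) * sg (s j)) * (sg (t i) * sg (t j))) / N ^ 2 := by
  unfold RR
  rw [div_pow, sq (∑ i, sg (s i) * sg (t i)), Finset.sum_mul_sum]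
  congr 1
  exact Finset.sum_congr rfl fun _ _ => Finset.sum_congr rfl fun _ _ => by ring

lemma GA_BB (g : Fin 3 × (Fin N × Fin N) → ℝ) :
    GA (BB β N r) (fun _ => 0) g (fun x => RR N x.1 x.2 ^ 2) =
      (∑ i, ∑ j, mm β N i j (mix r 0 1 g) * mm β N i j (mix r 0 2 g)) / N ^ 2 := by
  unfold mm GA
  rw [Z_BB]
  set Z1 := ∑ s, Real.exp (ip (mix r 0 1 g) (uu β N s) + 0) with hZ1
  set Z2 := ∑ t, Real.exp (ip (mix r 0 2 g) (uu β N t) + 0) with hZ2
  have h1 : ∀ i j, (∑ s, sg (s i) * sg (s j) * Real.exp (ip (mix r 0 1 g) (uu β N s) + 0)) / Z1 *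
      ((∑ t, sg (t i) * sg (t j) * Real.exp (ip (mix r 0 2 g) (uu β N t) + 0)) / Z2) =
      (∑ s, ∑ t, (sg (s i) * sg (s j)) * (sg (t i) * sg (t j)) *
        Real.exp (ip g (BB β N r (s, t)) + 0)) / (Z1 * Z2) := by
    intro i j
    rw [div_mul_div_comm, Finset.sum_mul_sum]
    congr 1
    refine Finset.sum_congr rfl fun s _ => Finset.sum_congr rfl fun t _ => ?_
    rw [exp_BB]
    ring
  simp only [h1]
  rw [Fintype.sum_prod_type]
  simp only [← Finset.sum_div]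
  rw [div_right_comm]
  congr 1
  rw [swap4, Finset.sum_div]
  refine Finset.sum_congr rfl fun s _ => ?_
  rw [Finset.sum_div]
  refine Finset.sum_congr rfl fun t _ => ?_
  rw [RR_sq, div_mul_eq_mul_div]
  congr 1
  rw [Finset.sum_mul]
  exact Finset.sum_congr rfl fun i _ => by rw [Finset.sum_mul]

/-- the matrix of `mix` -/
noncomputable def AA (κ : Type) [DecidableEq κ] (r : ℝ) (a : Fin 3) (i : κ) (p : Fin 3 × κ) : ℝ :=
  if p.2 = i then (if p.1 = 0 then r else if p.1 = a then √(1 - r ^ 2) else 0) else 0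

lemma ip_AA {κ : Type} [Fintype κ] [DecidableEq κ] (a : Fin 3) (ha : a = 1 ∨ a = 2) (i : κ)
    (g : Fin 3 × κ → ℝ) : ip (AA κ r a i) g = mix r 0 a g i := by
  unfold ip AA mix
  rw [Fintype.sum_prod_type, Fin.sum_univ_three]
  rcases ha with rfl | rfl
  · simp
  · simp

lemma mix_law (hLAW : St_LAW) (hr : r ^ 2 ≤ 1) {κ : Type} [Fintype κ] [DecidableEq κ] (a : Fin 3)
    (ha : a = 1 ∨ a = 2) :
    MeasurePreserving (fun (g : Fin 3 × κ → ℝ) => mix r 0 a g) (gam (Fin 3 × κ)) (gam κ) := by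
  have h1 := hLAW (Fin 3 × κ) κ (AA κ r a) (by
    intro i j
    rw [ip_AA r a ha]
    unfold mix AA
    have h : √(1 - r ^ 2) * √(1 - r ^ 2) = 1 - r ^ 2 := Real.mul_self_sqrt (by linarith)
    by_cases hij : i = j
    · subst hij
      rcases ha with rfl | rfl
      · simp only [if_true, one_ne_zero, if_false]
        linear_combination h
      · simp only [if_true, if_false, Fin.reduceEq]
        linear_combination h
    · rw [if_neg hij, if_neg hij, if_neg hij]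
      ring)
  have h2 : (fun (g : Fin 3 × κ → ℝ) (i : κ) => ip (AA κ r a i) g) = fun g => mix r 0 a g := by
    funext g i
    exact ip_AA r a ha i g
  rw [h2] at h1
  exact h1

lemma EE_mix (hLAW : St_LAW) (hr : r ^ 2 ≤ 1) {κ : Type} [Fintype κ] [DecidableEq κ] (a : Fin 3)
    (ha : a = 1 ∨ a = 2) (F : (κ → ℝ) → ℝ) (hF : Continuous F) :
    EE (fun g : Fin 3 × κ → ℝ => F (mix r 0 a g)) = EE F := by
  unfold EE
  have h := mix_law r hLAW hr (κ := κ) a ha
  rw [← h.map_eq, integral_map h.measurable.aemeasurable]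
  rw [h.map_eq]
  exact hF.aestronglyMeasurable

end

instance (κ : Type) [Fintype κ] : IsProbabilityMeasure (gam κ) := by
  unfold gam
  infer_instance

theorem t_PSI0 (hCMP : St_CMP) (hCONV : St_CONV) (hCOV : St_COV) (hGAUGE : St_GAUGE)
    (hLAW : St_LAW) (hINT : St_INT) : St_PSI0 := by
  intro β hβ
  have hr0 : 0 < min (1 / 2) (1 / (2 * β)) := by positivity
  refine ⟨min (1 / 2) (1 / (2 * β)), 8, hr0, (min_le_left _ _).trans_lt (by norm_num),
    fun N hN => ?_⟩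
  set r := min (1 / 2) (1 / (2 * β)) with hrdef
  have hr1 : r ≤ 1 / 2 := min_le_left _ _
  have hrb : r * β ≤ 1 / 2 := by
    have h1 : r ≤ 1 / (2 * β) := min_le_right _ _
    calc r * β ≤ 1 / (2 * β) * β := mul_le_mul_of_nonneg_right h1 hβ.le
      _ = 1 / 2 := by field_simp
  have hr2 : r ^ 2 ≤ 1 := by nlinarith
  have hN0 : (0 : ℝ) < N := by exact_mod_cast hN
  set w : (Fin N → Fin 2) × (Fin N → Fin 2) → ℝ := fun x => N / 8 * RR N x.1 x.2 ^ 2 with hw
  -- comparison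
  have h1 : EE (LZ (BB β N r) w) ≤ 2 * EE (LL β N) + 1 := by
    refine le_trans (hCMP _ _ _ (BB β N r)
      (fun p : (Fin N → Fin 2) × (Fin N → Fin 2) => Sum.elim (uu β N p.1) (uu β N p.2))
      w (fun p => N * RR N p.1 p.2 ^ 2 / 4) ?_) (hGAUGE β N hN)
    intro x y
    rw [ip_sum, ip_sum, ip_BB_BB β N r hr2, ip_BB_BB β N r hr2, (hCOV β N hN x.1 x.2).1,
      (hCOV β N hN x.2 x.1).1, (hCOV β N hN x.1 y.2).1, (hCOV β N hN x.2 y.1).1]
    have hsym : RR N x.2 x.1 = RR N x.1 x.2 := by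
      unfold RR
      congr 1
      exact Finset.sum_congr rfl fun _ _ => mul_comm _ _
    rw [hsym, hw]
    have e1 : 0 ≤ r ^ 2 * β ^ 2 / 4 * (N * RR N x.1 y.2 ^ 2) := by positivity
    have e2 : 0 ≤ r ^ 2 * β ^ 2 / 4 * (N * RR N x.2 y.1 ^ 2) := by positivity
    have e3 : 0 ≤ N * RR N x.1 x.2 ^ 2 := by positivity
    have e4 : r ^ 2 * β ^ 2 ≤ 1 / 4 := by
      have h5 : (r * β) ^ 2 ≤ (1 / 2) ^ 2 := pow_le_pow_left₀ (by positivity) hrb 2
      have h6 : (r * β) ^ 2 = r ^ 2 * β ^ 2 := by ring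
      rw [h6] at h5
      linarith
    have e5 : 0 ≤ (1 / 4 - r ^ 2 * β ^ 2) * (N * RR N x.1 x.2 ^ 2) :=
      mul_nonneg (by linarith) e3
    nlinarith
  -- Jensen
  have h2 : ∀ g, LZ (BB β N r) (fun _ => 0) g +
      N / 8 * GA (BB β N r) (fun _ => 0) g (fun x => RR N x.1 x.2 ^ 2) ≤ LZ (BB β N r) w g := by
    intro g
    have h3 := (hCONV _ _ (BB β N r) (fun _ => 0) w).2 g
    have h4 : (fun _ => 0) + w = w := by
      funext x
      simp
    rw [h4] at h3
    have h5 : GA (BB β N r) (fun _ => 0) g w =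
        N / 8 * GA (BB β N r) (fun _ => 0) g (fun x => RR N x.1 x.2 ^ 2) := by
      unfold GA
      rw [← mul_div_assoc, Finset.mul_sum]
      congr 1
      exact Finset.sum_congr rfl fun x _ => by rw [hw]; ring
    rwa [h5] at h3
  obtain ⟨c1, i1, -, c2, c3⟩ := hINT _ _ (BB β N r) (fun _ => 0)
  have i2 : Integrable (LZ (BB β N r) w) (gam (Fin 3 × (Fin N × Fin N))) :=
    (hINT _ _ (BB β N r) w).2.1
  have hRR : ∀ x : (Fin N → Fin 2) × (Fin N → Fin 2), |RR N x.1 x.2 ^ 2| ≤ 1 := by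
    intro x
    rw [abs_of_nonneg (sq_nonneg _), ← sq_abs]
    exact pow_le_one₀ (abs_nonneg _) (hCOV β N hN x.1 x.2).2.1
  have i3 : Integrable (fun g => GA (BB β N r) (fun _ => 0) g (fun x => RR N x.1 x.2 ^ 2))
      (gam (Fin 3 × (Fin N × Fin N))) := by
    refine Integrable.mono' (integrable_const 1) (c2 _).aestronglyMeasurable ?_
    refine Filter.Eventually.of_forall fun g => ?_
    exact c3 _ 1 hRR g
  have h3 : EE (LZ (BB β N r) (fun _ => 0)) +
      N / 8 * EE (fun g => GA (BB β N r) (fun _ => 0) g (fun x => RR N x.1 x.2 ^ 2)) ≤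
      EE (LZ (BB β N r) w) := by
    unfold EE
    rw [← integral_const_mul, ← integral_add i1 (i3.const_mul _)]
    exact integral_mono (i1.add (i3.const_mul _)) i2 h2
  have h4 : EE (fun g => GA (BB β N r) (fun _ => 0) g (fun x => RR N x.1 x.2 ^ 2)) =
      Psi β N r := by
    unfold Psi
    congr 1
    funext g
    exact GA_BB β N r g
  have hLLc : Continuous (LL β N) := (hINT _ _ (uu β N) (fun _ => 0)).1
  have hmixc : ∀ a : Fin 3, Continuous fun g : Fin 3 × (Fin N × Fin N) → ℝ => mix r 0 a g := by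
    intro a
    unfold mix
    fun_prop
  have hLLi : Integrable (LL β N) (gam (Fin N × Fin N)) := (hINT _ _ (uu β N) (fun _ => 0)).2.1
  have h5 : EE (LZ (BB β N r) (fun _ => 0)) = 2 * EE (LL β N) := by
    have h6 : LZ (BB β N r) (fun _ => 0) = fun g => LL β N (mix r 0 1 g) + LL β N (mix r 0 2 g) := by
      funext g
      exact LZ_BB β N r g
    rw [h6]
    have j1 : Integrable (fun g => LL β N (mix r 0 1 g)) (gam (Fin 3 × (Fin N × Fin N))) :=
      (mix_law r hLAW hr2 1 (Or.inl rfl)).integrable_comp_of_integrable hLLi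
    have j2 : Integrable (fun g => LL β N (mix r 0 2 g)) (gam (Fin 3 × (Fin N × Fin N))) :=
      (mix_law r hLAW hr2 2 (Or.inr rfl)).integrable_comp_of_integrable hLLi
    have h7 : EE (fun g : Fin 3 × (Fin N × Fin N) → ℝ =>
        LL β N (mix r 0 1 g) + LL β N (mix r 0 2 g)) =
        EE (fun g : Fin 3 × (Fin N × Fin N) → ℝ => LL β N (mix r 0 1 g)) +
          EE (fun g : Fin 3 × (Fin N × Fin N) → ℝ => LL β N (mix r 0 2 g)) := by
      unfold EE
      exact integral_add j1 j2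
    rw [h7, EE_mix r hLAW hr2 1 (Or.inl rfl) _ hLLc, EE_mix r hLAW hr2 2 (Or.inr rfl) _ hLLc]
    ring
  rw [h4, h5] at h3
  rw [le_div_iff₀ hN0]
  linarith

end Pool.Agent.TH79.DFM
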